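import Mathlib

/-!
# Splitting a basis against a direct sum decomposition: three of the four conditions

A good splitting of a basis `B` with respect to `V₁ ⊕ V₂ = R` is a partition of `B` into `B₁`, `B₂`
with `V₁ ∩ sp(B₁) = 0`, `V₁ + sp(B₁) = R`, `V₂ ∩ sp(B₂) = 0`, `V₂ + sp(B₂) = R`.
-/

set_option autoImplicit false

open Submodule Cardinal

namespace Pool.Agent.Results.MP_59a3d4_lc.ThreeOfFour

universe u v w

section positive

variable {F : Type u} [Field F] {R : Type v} [AddCommGroup R] [Module F R]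

/-- Expansion of a determinant: a finite independent family can be split. -/
theorem fin_split {A : Type w} [Fintype A] [DecidableEq A] (a : A → R)
    (ha : LinearIndependent F a) (p q : R →ₗ[F] R) (hpq : ∀ x, p x + q x = x) :
    ∃ s : Finset A, LinearIndependent F
      (s.piecewise (fun i => p (a i)) (fun i => q (a i)) : A → R) := by
  classical
  obtain ⟨Φ, hΦ⟩ : ∃ Φ : R →ₗ[F] (A → F), ∀ i, Φ (a i) = Pi.single i 1 := by
    obtain ⟨g, hg⟩ := LinearMap.exists_extend
      ((Module.Basis.span ha).constr F (fun i => (Pi.single i 1 : A → F)))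
    refine ⟨g, fun i => ?_⟩
    have h1 := LinearMap.congr_fun hg (Module.Basis.span ha i)
    rw [Module.Basis.constr_basis] at h1
    rw [← h1, LinearMap.comp_apply, Submodule.subtype_apply, Module.Basis.span_apply]
  let D : (A → F) [⋀^A]→ₗ[F] F := Matrix.detRowAlternating
  have h1 : D (fun i => Φ (a i)) = 1 := by
    have : (fun i => Φ (a i)) = (1 : Matrix A A F) := by
      funext i j
      rw [hΦ, Matrix.one_apply, Pi.single_apply]
      by_cases h : i = j
      · subst h; simp
      · rw [if_neg h, if_neg (fun h' => h h'.symm)]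
    rw [this]
    exact Matrix.det_one
  have h2 : D (fun i => Φ (a i)) = ∑ s : Finset A,
      D (s.piecewise (fun i => Φ (p (a i))) (fun i => Φ (q (a i)))) := by
    have h3 := (D : MultilinearMap F (fun _ : A => A → F) F).map_add_univ
      (fun i => Φ (p (a i))) (fun i => Φ (q (a i)))
    have h4 : ((fun i => Φ (p (a i))) + (fun i => Φ (q (a i))) : A → A → F) =
        fun i => Φ (a i) := by
      funext i
      rw [Pi.add_apply, ← map_add, hpq]
    rw [h4] at h3
    exact h3
  have h3 : ∃ s : Finset A,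
      D (s.piecewise (fun i => Φ (p (a i))) (fun i => Φ (q (a i)))) ≠ 0 := by
    by_contra hcon
    push Not at hcon
    rw [h1] at h2
    rw [Finset.sum_eq_zero fun s _ => hcon s] at h2
    exact one_ne_zero h2
  obtain ⟨s, hs⟩ := h3
  refine ⟨s, ?_⟩
  have h5 : LinearIndependent F
      (s.piecewise (fun i => Φ (p (a i))) (fun i => Φ (q (a i))) : A → A → F) := by
    by_contra h
    exact hs (D.map_linearDependent _ h)
  refine LinearIndependent.of_comp Φ ?_
  have h6 : (Φ ∘ (s.piecewise (fun i => p (a i)) (fun i => q (a i)) : A → R)) =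
      (s.piecewise (fun i => Φ (p (a i))) (fun i => Φ (q (a i))) : A → A → F) := by
    funext i
    by_cases hi : i ∈ s
    · simp [Finset.piecewise, hi]
    · simp [Finset.piecewise, hi]
  rw [h6]
  exact h5

/-- The infinite form, by compactness. -/
theorem inf_split {A : Type w} (a : A → R)
    (ha : LinearIndependent F a) (p q : R →ₗ[F] R) (hpq : ∀ x, p x + q x = x) :
    ∃ χ : A → Bool, LinearIndependent F fun i => if χ i then p (a i) else q (a i) := by
  classical
  have h1 : ∀ t : Finset A, ∃ χ : A → Bool,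
      LinearIndependent F fun i : t => if χ i then p (a i) else q (a i) := by
    intro t
    obtain ⟨s, hs⟩ := fin_split (F := F) (fun i : t => a i)
      (ha.comp _ Subtype.val_injective) p q hpq
    refine ⟨fun i => if h : i ∈ t then decide (⟨i, h⟩ ∈ s) else false, ?_⟩
    have : (fun i : t => if (if h : (i : A) ∈ t then decide (⟨i, h⟩ ∈ s) else false : Bool)
        then p (a i) else q (a i)) = (s.piecewise (fun i : t => p (a i)) (fun i => q (a i))) := by
      funext i
      rw [dif_pos i.2]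
      by_cases hi : i ∈ s
      · simp [hi]
      · simp [hi]
    rw [this]
    exact hs
  choose g hg using h1
  obtain ⟨χ, hχ⟩ := Finset.rado_selection (β := fun _ : A => Bool) g
  refine ⟨χ, ?_⟩
  rw [linearIndependent_iff_finset_linearIndependent]
  intro s
  obtain ⟨t, hst, ht⟩ := hχ s
  have h2 := (hg t).comp (fun i : s => (⟨i, hst i.2⟩ : t)) (fun i j h => by
    apply Subtype.ext
    exact congrArg (fun x : t => (x : A)) h)
  convert h2 using 1
  funext i
  simp only [Function.comp_apply]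
  rw [ht i i.2]

/-- Independence after applying a map means that the kernel misses the span. -/
theorem disjoint_of_indep {q : R →ₗ[F] R} {C : Set R} (h : LinearIndepOn F q C) :
    Disjoint (LinearMap.ker q) (span F C) := by
  rw [Submodule.disjoint_def]
  intro x hx hxC
  rw [← Set.image_id C, Finsupp.mem_span_image_iff_linearCombination] at hxC
  obtain ⟨l, hl, rfl⟩ := hxC
  have h1 : Finsupp.linearCombination F q l = 0 := by
    have : Finsupp.linearCombination F q l = q (Finsupp.linearCombination F id l) := by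
      rw [Finsupp.linearCombination_apply, Finsupp.linearCombination_apply, map_finsuppSum]
      simp
    rw [this]
    exact LinearMap.mem_ker.1 hx
  rw [(linearIndepOn_iff.1 h) l hl h1, map_zero]

/-- Three of the four conditions, for the kernels of complementary projections. -/
theorem three {B : Set R} (hlin : LinearIndepOn F id B) (hspan : span F B = ⊤)
    (p q : R →ₗ[F] R) (hpq : ∀ x, p x + q x = x) :
    ∃ B₁ B₂ : Set R, B₁ ∪ B₂ = B ∧ Disjoint B₁ B₂ ∧
      IsCompl (LinearMap.ker q) (span F B₁) ∧ Disjoint (LinearMap.ker p) (span F B₂) := by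
  classical
  obtain ⟨χ, hχ⟩ := inf_split (F := F) (fun i : B => (i : R)) hlin p q hpq
  have hq : LinearIndepOn F q {x | ∃ h : x ∈ B, χ ⟨x, h⟩ = false} := by
    have h1 := hχ.comp (fun i : {x | ∃ h : x ∈ B, χ ⟨x, h⟩ = false} => (⟨i, i.2.1⟩ : B))
      (fun i j h => Subtype.ext (congrArg (fun x : B => (x : R)) h))
    have h2 : ((fun i : B => if χ i = true then p (i : R) else q (i : R)) ∘
        fun i : {x | ∃ h : x ∈ B, χ ⟨x, h⟩ = false} => (⟨i, i.2.1⟩ : B)) =
        fun i : {x | ∃ h : x ∈ B, χ ⟨x, h⟩ = false} => q (i : R) := by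
      funext i
      have : χ ⟨i, i.2.1⟩ = false := i.2.2
      simp [this]
    rw [h2] at h1
    exact h1
  have hp : LinearIndepOn F p {x | ∃ h : x ∈ B, χ ⟨x, h⟩ = true} := by
    have h1 := hχ.comp (fun i : {x | ∃ h : x ∈ B, χ ⟨x, h⟩ = true} => (⟨i, i.2.1⟩ : B))
      (fun i j h => Subtype.ext (congrArg (fun x : B => (x : R)) h))
    have h2 : ((fun i : B => if χ i = true then p (i : R) else q (i : R)) ∘
        fun i : {x | ∃ h : x ∈ B, χ ⟨x, h⟩ = true} => (⟨i, i.2.1⟩ : B)) =
        fun i : {x | ∃ h : x ∈ B, χ ⟨x, h⟩ = true} => p (i : R) := by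
      funext i
      have : χ ⟨i, i.2.1⟩ = true := i.2.2
      simp [this]
    rw [h2] at h1
    exact h1
  obtain ⟨B₁, h2, h1, h3, h4⟩ := exists_linearIndepOn_extension hq
    (t := B) (fun x hx => hx.1)
  refine ⟨B₁, B \ B₁, Set.union_sdiff_cancel h2, Set.disjoint_sdiff_right, ⟨?_, ?_⟩, ?_⟩
  · exact disjoint_of_indep h4
  · rw [codisjoint_iff, eq_top_iff]
    intro x _
    have h5 : q x ∈ span F (q '' B₁) := by
      have h6 : span F (q '' B) ≤ span F (q '' B₁) := span_le.2 h3
      refine h6 ?_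
      rw [← Submodule.map_span, hspan]
      exact ⟨x, mem_top, rfl⟩
    rw [← Submodule.map_span] at h5
    obtain ⟨y, hy, hxy⟩ := h5
    refine Submodule.mem_sup.2 ⟨x - y, ?_, y, hy, by abel⟩
    rw [LinearMap.mem_ker, map_sub, hxy, sub_self]
  · refine disjoint_of_indep (hp.mono ?_)
    rintro x ⟨hx, hx'⟩
    refine ⟨hx, ?_⟩
    by_contra hcon
    exact hx' (h1 ⟨hx, by simpa using hcon⟩)

/-- The projections of a decomposition. -/
theorem exists_proj {V₁ V₂ : Submodule F R} (h : IsCompl V₁ V₂) :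
    ∃ p q : R →ₗ[F] R, (∀ x, p x + q x = x) ∧ LinearMap.ker q = V₁ ∧ LinearMap.ker p = V₂ ∧
      (∀ x, p x ∈ V₁) ∧ ∀ x, q x ∈ V₂ := by
  refine ⟨V₁.projection V₂ h, V₂.projection V₁ h.symm,
    Submodule.projection_add_projection_eq_self h, ?_, ?_, fun x => ?_, fun x => ?_⟩
  · ext x
    rw [LinearMap.mem_ker]
    exact Submodule.projection_apply_eq_zero_iff h.symm
  · ext x
    rw [LinearMap.mem_ker]
    exact Submodule.projection_apply_eq_zero_iff h
  · exact Submodule.projection_apply_mem h x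
  · exact Submodule.projection_apply_mem h.symm x

theorem good_of_finite {B : Set R} (hlin : LinearIndepOn F id B) (hspan : span F B = ⊤)
    {V₁ V₂ : Submodule F R} (h : IsCompl V₁ V₂) (hf : FiniteDimensional F V₁) :
    ∃ B₁ B₂ : Set R, B₁ ∪ B₂ = B ∧ Disjoint B₁ B₂ ∧
      IsCompl V₁ (span F B₁) ∧ IsCompl V₂ (span F B₂) := by
  obtain ⟨p, q, hpq, hq, hp, hpm, hqm⟩ := exists_proj h
  obtain ⟨B₁, B₂, hun, hd, h1, h2⟩ := three hlin hspan p q hpq
  rw [hq] at h1
  refine ⟨B₁, B₂, hun, hd, h1, ⟨hp ▸ h2, ?_⟩⟩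
  have hcB : IsCompl (span F B₁) (span F B₂) := by
    constructor
    · exact ((linearIndepOn_id_union_iff hd).1 (hun ▸ hlin)).2.2
    · rw [codisjoint_iff, ← Submodule.span_union, hun, hspan]
  let e : V₁ ≃ₗ[F] span F B₂ :=
    (Submodule.quotientEquivOfIsCompl (span F B₁) V₁ h1.symm).symm.trans
      (Submodule.quotientEquivOfIsCompl (span F B₁) (span F B₂) hcB)
  let f : V₁ →ₗ[F] V₁ := ((p.codRestrict V₁ hpm).comp (span F B₂).subtype).comp e.toLinearMap
  have hf1 : Function.Injective f := by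
    rw [← LinearMap.ker_eq_bot, LinearMap.ker_eq_bot']
    intro x hx
    have h3 : p (e x : R) = 0 := congrArg (fun y : V₁ => (y : R)) hx
    have h4 : (e x : R) = 0 :=
      (Submodule.disjoint_def.1 h2) _ (LinearMap.mem_ker.2 h3) (e x).2
    have h5 : e x = 0 := Subtype.ext h4
    exact (LinearEquiv.map_eq_zero_iff e).1 h5
  have hf2 : Function.Surjective f := LinearMap.injective_iff_surjective.1 hf1
  rw [codisjoint_iff, eq_top_iff]
  intro x _
  obtain ⟨y, hy⟩ := hf2 ⟨p x, hpm x⟩
  have h3 : p (e y : R) = p x := congrArg (fun y : V₁ => (y : R)) hy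
  refine Submodule.mem_sup.2 ⟨x - e y, ?_, e y, (e y).2, by abel⟩
  rw [← hp, LinearMap.mem_ker, map_sub, h3, sub_self]

end positive

section negative

variable {F : Type u} [Field F] {R : Type v} [AddCommGroup R] [Module F R] {K₁ K₂ : Type v}

/-- The values of the projection on the basis vectors: `u k ↦ s k`, `z k ↦ s k - s (k + 1)` with
`s k = u (k + 1) + z k`, the identity on the third and zero on the fourth kind. -/
noncomputable def pval (b : Module.Basis ((ℕ ⊕ ℕ) ⊕ (K₁ ⊕ K₂)) F R) :
    (ℕ ⊕ ℕ) ⊕ (K₁ ⊕ K₂) → R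
  | Sum.inl (Sum.inl k) => b (Sum.inl (Sum.inl (k + 1))) + b (Sum.inl (Sum.inr k))
  | Sum.inl (Sum.inr k) => (b (Sum.inl (Sum.inl (k + 1))) + b (Sum.inl (Sum.inr k)))
      - (b (Sum.inl (Sum.inl (k + 2))) + b (Sum.inl (Sum.inr (k + 1))))
  | Sum.inr (Sum.inl x) => b (Sum.inr (Sum.inl x))
  | Sum.inr (Sum.inr _) => 0

/-- The projection. -/
noncomputable def P (b : Module.Basis ((ℕ ⊕ ℕ) ⊕ (K₁ ⊕ K₂)) F R) : R →ₗ[F] R :=
  b.constr F (pval b)

variable (b : Module.Basis ((ℕ ⊕ ℕ) ⊕ (K₁ ⊕ K₂)) F R)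

theorem P_u (k : ℕ) : P b (b (Sum.inl (Sum.inl k))) =
    b (Sum.inl (Sum.inl (k + 1))) + b (Sum.inl (Sum.inr k)) := by
  unfold P; rw [b.constr_basis]; rfl

theorem P_z (k : ℕ) : P b (b (Sum.inl (Sum.inr k))) =
    (b (Sum.inl (Sum.inl (k + 1))) + b (Sum.inl (Sum.inr k)))
      - (b (Sum.inl (Sum.inl (k + 2))) + b (Sum.inl (Sum.inr (k + 1)))) := by
  unfold P; rw [b.constr_basis]; rfl

theorem P_x (x : K₁) : P b (b (Sum.inr (Sum.inl x))) = b (Sum.inr (Sum.inl x)) := by
  unfold P; rw [b.constr_basis]; rfl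

theorem P_y (y : K₂) : P b (b (Sum.inr (Sum.inr y))) = 0 := by
  unfold P; rw [b.constr_basis]; rfl

theorem P_idem : IsIdempotentElem (P b) := by
  refine b.ext fun i => ?_
  rw [Module.End.mul_apply]
  rcases i with (k | k) | (x | y)
  · rw [P_u, map_add, P_u, P_z]; abel
  · rw [P_z, map_sub, map_add, map_add, P_u, P_z, P_u, P_z]; abel
  · rw [P_x, P_x]
  · rw [P_y, map_zero]

/-- A functional that vanishes on `V` and on `b '' I` is zero when they span. -/
theorem fn_zero {ι : Type w} (c : ι → R) (V : Submodule F R) (I : Set ι)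
    (hV : V ⊔ span F (c '' I) = ⊤) (f : R →ₗ[F] F) (h1 : ∀ x ∈ V, f x = 0)
    (h2 : ∀ i ∈ I, f (c i) = 0) (x : R) : f x = 0 := by
  have hle : V ⊔ span F (c '' I) ≤ LinearMap.ker f := by
    refine sup_le (fun x hx => LinearMap.mem_ker.2 (h1 x hx)) (span_le.2 ?_)
    rintro _ ⟨i, hi, rfl⟩
    exact LinearMap.mem_ker.2 (h2 i hi)
  rw [hV] at hle
  exact LinearMap.mem_ker.1 (hle (mem_top (x := x)))

open Classical in
/-- The recursive values of the obstructing functional on the `u k`. -/
noncomputable def a (F : Type u) [Field F] (s : ℕ → Prop) : ℕ → F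
  | 0 => 1
  | (k + 1) => if s k then a F s k else 0

theorem core (I₁ I₂ : Set ((ℕ ⊕ ℕ) ⊕ (K₁ ⊕ K₂))) (hd : Disjoint I₁ I₂)
    (h1 : LinearMap.range (P b) ⊔ span F (b '' I₁) = ⊤)
    (h2 : LinearMap.ker (P b) ⊔ span F (b '' I₂) = ⊤) : False := by
  classical
  have hdis : ∀ i, i ∈ I₁ → i ∈ I₂ → False := fun i ha hb => Set.disjoint_left.1 hd ha hb
  -- functionals given by their values on the basis
  have hfn : ∀ g : (ℕ ⊕ ℕ) ⊕ (K₁ ⊕ K₂) → F, ∀ i, (b.constr F g : R →ₗ[F] F) (b i) = g i :=
    fun g i => b.constr_basis F g i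
  -- the first basis vector lies in the first part
  have hA : (Sum.inl (Sum.inl 0)) ∈ I₁ := by
    by_contra hcon
    let g : (ℕ ⊕ ℕ) ⊕ (K₁ ⊕ K₂) → F := fun s => match s with
      | Sum.inl (Sum.inl 0) => 1
      | _ => 0
    have hz := fn_zero b _ I₁ h1 (b.constr F g) ?_ ?_ (b (Sum.inl (Sum.inl 0)))
    · rw [hfn] at hz
      exact one_ne_zero hz
    · rintro _ ⟨x, rfl⟩
      have : (b.constr F g : R →ₗ[F] F) ∘ₗ (P b) = 0 := by
        refine b.ext fun i => ?_
        rcases i with (k | k) | (x | y)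
        · rw [LinearMap.comp_apply, P_u, map_add, hfn, hfn]; simp [g]
        · rw [LinearMap.comp_apply, P_z, map_sub, map_add, map_add, hfn, hfn, hfn, hfn]
          simp [g]
        · rw [LinearMap.comp_apply, P_x, hfn]; simp [g]
        · rw [LinearMap.comp_apply, P_y, map_zero]; simp
      exact LinearMap.congr_fun this x
    · intro i hi
      rw [hfn]
      rcases i with ((_ | k) | k) | (x | y)
      · exact absurd hi hcon
      · rfl
      · rfl
      · rfl
      · rfl
  -- no pair lies entirely in the second part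
  have hC : ∀ k, (Sum.inl (Sum.inl (k + 1))) ∈ I₂ → (Sum.inl (Sum.inr k)) ∉ I₂ := by
    intro k ha hb
    let g : (ℕ ⊕ ℕ) ⊕ (K₁ ⊕ K₂) → F := fun s =>
      (if s = Sum.inl (Sum.inl (k + 1)) then 1 else 0) -
        (if s = Sum.inl (Sum.inr k) then 1 else 0)
    have hpair : ∀ j : ℕ, g (Sum.inl (Sum.inl (j + 1))) + g (Sum.inl (Sum.inr j)) = 0 := by
      intro j
      by_cases hj : j = k
      · subst hj; simp [g]
      · simp [g, hj]
    have hz := fn_zero b _ I₁ h1 (b.constr F g) ?_ ?_ (b (Sum.inl (Sum.inl (k + 1))))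
    · rw [hfn] at hz
      simp [g] at hz
    · rintro _ ⟨x, rfl⟩
      have : (b.constr F g : R →ₗ[F] F) ∘ₗ (P b) = 0 := by
        refine b.ext fun i => ?_
        rcases i with (j | j) | (x | y)
        · rw [LinearMap.comp_apply, P_u, map_add, hfn, hfn, hpair]; simp
        · rw [LinearMap.comp_apply, P_z, map_sub, map_add, map_add, hfn, hfn, hfn, hfn, hpair,
            hpair (j + 1), sub_zero]
          rfl
        · rw [LinearMap.comp_apply, P_x, hfn]; simp [g]
        · rw [LinearMap.comp_apply, P_y, map_zero]; simp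
      exact LinearMap.congr_fun this x
    · intro i hi
      rw [hfn]
      have n1 : i ≠ Sum.inl (Sum.inl (k + 1)) := fun h => hdis _ (h ▸ hi) ha
      have n2 : i ≠ Sum.inl (Sum.inr k) := fun h => hdis _ (h ▸ hi) hb
      simp [g, n1, n2]
  -- the obstructing functional
  let s : ℕ → Prop := fun k => (Sum.inl (Sum.inr k)) ∈ I₂
  let g : (ℕ ⊕ ℕ) ⊕ (K₁ ⊕ K₂) → F := fun t => match t with
    | Sum.inl (Sum.inl k) => a F s k
    | Sum.inl (Sum.inr k) => a F s k - a F s (k + 1)
    | Sum.inr _ => 0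
  have hz := fn_zero b _ I₂ h2 (b.constr F g) ?_ ?_ (b (Sum.inl (Sum.inl 0)))
  · rw [hfn] at hz
    exact one_ne_zero hz
  · intro x hx
    have : (b.constr F g : R →ₗ[F] F) ∘ₗ (P b) = b.constr F g := by
      refine b.ext fun i => ?_
      rcases i with (j | j) | (x | y)
      · rw [LinearMap.comp_apply, P_u, map_add, hfn, hfn, hfn]
        simp only [g]; ring
      · rw [LinearMap.comp_apply, P_z, map_sub, map_add, map_add, hfn, hfn, hfn, hfn]
        simp only [g]
        ring
      · rw [LinearMap.comp_apply, P_x]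
      · rw [LinearMap.comp_apply, P_y, map_zero, hfn]
    rw [← this, LinearMap.comp_apply, LinearMap.mem_ker.1 hx, map_zero]
  · intro i hi
    rw [hfn]
    rcases i with ((_ | k) | k) | (x | y)
    · exact absurd hi (fun h => hdis _ hA h)
    · have hns : ¬ s k := fun h => hC k hi h
      simp only [g, a, if_neg hns]
    · have hs : s k := hi
      simp only [g, a, if_pos hs, sub_self]
    · rfl
    · rfl

theorem rank_eq {K : Type v} (V : Submodule F R) (hK : ℵ₀ ≤ #K) (g : ℕ ⊕ K → R)
    (hg : V = span F (Set.range g)) (hi : LinearIndependent F fun x : K => g (Sum.inr x)) :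
    Module.rank F V = #K := by
  apply le_antisymm
  · rw [hg]
    refine (rank_span_le _).trans ((mk_range_le).trans ?_)
    rw [mk_sum]
    simp only [mk_nat, lift_aleph0, lift_uzero]
    rw [add_eq_right hK hK]
  · have h1 : LinearIndependent F fun x : K => (⟨g (Sum.inr x), by
        rw [hg]; exact subset_span ⟨_, rfl⟩⟩ : V) := by
      refine LinearIndependent.of_comp V.subtype ?_
      exact hi
    exact h1.cardinal_le_rank

end negative

/-- Let `B` be a basis of a vector space `R`.
(a) For every decomposition `R = V₁ ⊕ V₂` there is a partition of `B` that satisfies three of the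
four conditions of a good splitting: `V₁ ⊕ sp(B₁) = R` and `V₂ ∩ sp(B₂) = 0`.
(b) If `V₁` or `V₂` is finite-dimensional, then there is a good splitting.
(c) For all infinite cardinals `κ₁`, `κ₂` with sum `dim R` there is a decomposition with
`dim V₁ = κ₁`, `dim V₂ = κ₂` for which there is no good splitting; there are not even disjoint
subsets `B₁`, `B₂` of `B` with `V₁ + sp(B₁) = R = V₂ + sp(B₂)`. -/
theorem result (F : Type u) [Field F] (R : Type v) [AddCommGroup R] [Module F R]
    (B : Set R) (hlin : LinearIndepOn F id B) (hspan : span F B = ⊤) :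
    (∀ V₁ V₂ : Submodule F R, IsCompl V₁ V₂ →
      ∃ B₁ B₂ : Set R, B₁ ∪ B₂ = B ∧ Disjoint B₁ B₂ ∧
        IsCompl V₁ (span F B₁) ∧ Disjoint V₂ (span F B₂)) ∧
    (∀ V₁ V₂ : Submodule F R, IsCompl V₁ V₂ → FiniteDimensional F V₁ ∨ FiniteDimensional F V₂ →
      ∃ B₁ B₂ : Set R, B₁ ∪ B₂ = B ∧ Disjoint B₁ B₂ ∧
        IsCompl V₁ (span F B₁) ∧ IsCompl V₂ (span F B₂)) ∧
    ∀ κ₁ κ₂ : Cardinal.{v}, ℵ₀ ≤ κ₁ → ℵ₀ ≤ κ₂ → κ₁ + κ₂ = Module.rank F R →
      ∃ V₁ V₂ : Submodule F R, IsCompl V₁ V₂ ∧ Module.rank F V₁ = κ₁ ∧ Module.rank F V₂ = κ₂ ∧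
        ¬ ∃ B₁ B₂ : Set R, B₁ ⊆ B ∧ B₂ ⊆ B ∧ Disjoint B₁ B₂ ∧
          V₁ ⊔ span F B₁ = ⊤ ∧ V₂ ⊔ span F B₂ = ⊤ := by
  classical
  refine ⟨fun V₁ V₂ h => ?_, fun V₁ V₂ h hf => ?_, fun κ₁ κ₂ h₁ h₂ hκ => ?_⟩
  · obtain ⟨p, q, hpq, hq, hp, -, -⟩ := exists_proj h
    obtain ⟨B₁, B₂, hun, hd, h1, h2⟩ := three hlin hspan p q hpq
    exact ⟨B₁, B₂, hun, hd, hq ▸ h1, hp ▸ h2⟩
  · rcases hf with hf | hf
    · exact good_of_finite hlin hspan h hf
    · obtain ⟨B₂, B₁, hun, hd, h2, h1⟩ := good_of_finite hlin hspan h.symm hf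
      exact ⟨B₁, B₂, Set.union_comm B₂ B₁ ▸ hun, hd.symm, h1, h2⟩
  · let b₀ : Module.Basis B F R := Module.Basis.mk (v := ((↑) : B → R)) hlin (by
      rw [Subtype.range_coe_subtype]; simp [hspan])
    have hb₀ : ∀ i : B, b₀ i = (i : R) := fun i => Module.Basis.mk_apply _ _ i
    have hB : #B = κ₁ + κ₂ := by rw [hκ]; exact b₀.mk_eq_rank''
    have hcard : #((ℕ ⊕ ℕ) ⊕ (κ₁.out ⊕ κ₂.out)) = #B := by
      rw [hB]
      simp only [mk_sum, mk_nat, lift_aleph0, aleph0_add_aleph0, lift_id', mk_out,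
        lift_id]
      rw [← add_assoc, add_eq_right h₁ h₁]
    obtain ⟨e⟩ := Cardinal.eq.1 hcard
    let b : Module.Basis ((ℕ ⊕ ℕ) ⊕ (κ₁.out ⊕ κ₂.out)) F R := b₀.reindex e.symm
    have hb : ∀ i, b i = (e i : R) := fun i => by
      rw [Module.Basis.reindex_apply, Equiv.symm_symm, hb₀]
    have hP := P_idem b
    refine ⟨LinearMap.range (P b), LinearMap.ker (P b), LinearMap.IsIdempotentElem.isCompl hP,
      ?_, ?_, ?_⟩
    · rw [rank_eq (K := κ₁.out) (LinearMap.range (P b)) (by rw [mk_out]; exact h₁)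
        (fun t => match t with
          | Sum.inl k => b (Sum.inl (Sum.inl (k + 1))) + b (Sum.inl (Sum.inr k))
          | Sum.inr x => b (Sum.inr (Sum.inl x))) ?_ ?_, mk_out]
      · apply le_antisymm
        · rw [LinearMap.range_eq_map, ← b.span_eq, Submodule.map_span, span_le]
          rintro _ ⟨_, ⟨i, rfl⟩, rfl⟩
          rcases i with (k | k) | (x | y)
          · rw [P_u]
            exact subset_span ⟨Sum.inl k, rfl⟩
          · rw [P_z]
            exact sub_mem (subset_span ⟨Sum.inl k, rfl⟩) (subset_span ⟨Sum.inl (k + 1), rfl⟩)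
          · rw [P_x]
            exact subset_span ⟨Sum.inr x, rfl⟩
          · rw [P_y]
            exact zero_mem _
        · rw [span_le]
          rintro _ ⟨k | x, rfl⟩
          · exact ⟨_, P_u b k⟩
          · exact ⟨_, P_x b x⟩
      · exact b.linearIndependent.comp _ (Sum.inr_injective.comp Sum.inl_injective)
    · rw [rank_eq (K := κ₂.out) (LinearMap.ker (P b)) (by rw [mk_out]; exact h₂)
        (fun t => match t with
          | Sum.inl k => b (Sum.inl (Sum.inl k)) -
              (b (Sum.inl (Sum.inl (k + 1))) + b (Sum.inl (Sum.inr k)))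
          | Sum.inr y => b (Sum.inr (Sum.inr y))) ?_ ?_, mk_out]
      · apply le_antisymm
        · intro z hz
          have h3 : z = (LinearMap.id - P b : R →ₗ[F] R) z := by
            rw [LinearMap.sub_apply, LinearMap.mem_ker.1 hz, sub_zero, LinearMap.id_apply]
          have h4 : (LinearMap.id - P b : R →ₗ[F] R) z ∈
              Submodule.map (LinearMap.id - P b : R →ₗ[F] R) (span F (Set.range b)) :=
            ⟨z, by rw [b.span_eq]; exact mem_top, rfl⟩
          rw [h3]
          rw [Submodule.map_span] at h4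
          refine (span_le.2 ?_ : span F _ ≤ _) h4
          rintro _ ⟨_, ⟨i, rfl⟩, rfl⟩
          rw [LinearMap.sub_apply, LinearMap.id_apply]
          rcases i with (k | k) | (x | y)
          · rw [P_u]
            exact subset_span ⟨Sum.inl k, rfl⟩
          · rw [P_z]
            have h5 : b (Sum.inl (Sum.inr k)) -
                (b (Sum.inl (Sum.inl (k + 1))) + b (Sum.inl (Sum.inr k)) -
                (b (Sum.inl (Sum.inl (k + 2))) + b (Sum.inl (Sum.inr (k + 1))))) =
                - (b (Sum.inl (Sum.inl (k + 1))) -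
                  (b (Sum.inl (Sum.inl (k + 1 + 1))) + b (Sum.inl (Sum.inr (k + 1))))) := by
              abel
            rw [h5]
            exact neg_mem (subset_span ⟨Sum.inl (k + 1), rfl⟩)
          · rw [P_x, sub_self]
            exact zero_mem _
          · rw [P_y, sub_zero]
            exact subset_span ⟨Sum.inr y, rfl⟩
        · rw [span_le]
          rintro _ ⟨k | y, rfl⟩
          · change _ ∈ LinearMap.ker (P b)
            rw [LinearMap.mem_ker, map_sub, map_add, P_u, P_u, P_z]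
            abel
          · exact LinearMap.mem_ker.2 (P_y b y)
      · exact b.linearIndependent.comp _ (Sum.inr_injective.comp Sum.inr_injective)
    · rintro ⟨B₁, B₂, hB1, hB2, hd, h1, h2⟩
      have himg : ∀ C : Set R, C ⊆ B → b '' {i | (e i : R) ∈ C} = C := by
        intro C hC
        ext x
        constructor
        · rintro ⟨i, hi, rfl⟩
          rw [hb i]; exact hi
        · intro hx
          refine ⟨e.symm ⟨x, hC hx⟩, ?_, ?_⟩
          · simpa using hx
          · rw [hb]; simp
      refine core b {i | (e i : R) ∈ B₁} {i | (e i : R) ∈ B₂} ?_ ?_ ?_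
      · rw [Set.disjoint_left]
        intro i hi hi'
        exact Set.disjoint_left.1 hd hi hi'
      · rw [himg B₁ hB1]; exact h1
      · rw [himg B₂ hB2]; exact h2

end Pool.Agent.Results.MP_59a3d4_lc.ThreeOfFour
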